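import Pool.Agent.helper36.PP.SpecL

/-!
# Project pp: (MP_70a088_an): CB, change of variables for Bochner integrals
-/

set_option autoImplicit false

open Complex Metric Set Filter Topology MeasureTheory MPS MQ Pool.Agent.helper98.ILF

noncomputable section

namespace PPS

/-- weight. -/
def CB_w (f : Polynomial ℂ) (y : ℂ) : ℝ := ‖fd f y‖ ^ 2

theorem CB_w_nonneg (f : Polynomial ℂ) (y : ℂ) : 0 ≤ CB_w f y := by
  unfold CB_w
  positivity

theorem CB_meas_w (f : Polynomial ℂ) : Measurable (CB_w f) := by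
  unfold CB_w fd
  exact ((f.derivative.continuous.measurable).norm.pow_const 2)

/-- transfer of a real function. -/
def CB_T (f : Polynomial ℂ) (G : ℂ → ℝ) (z : ℂ) : ℝ :=
  ((pre f z).map fun y => G y / CB_w f y).sum

theorem CB_T_meas (hMS : MS_stmt) (f : Polynomial ℂ) (hf : 1 ≤ f.natDegree) {G : ℂ → ℝ}
    (hG : Measurable G) : Measurable (CB_T f G) :=
  (hMS f hf).2.1 _ (hG.div (CB_meas_w f))

theorem CB_T_nonneg (f : Polynomial ℂ) {G : ℂ → ℝ} (hG : ∀ y, 0 ≤ G y) (z : ℂ) : 0 ≤ CB_T f G z := by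
  unfold CB_T
  refine Multiset.sum_nonneg fun x hx => ?_
  rw [Multiset.mem_map] at hx
  obtain ⟨y, _, rfl⟩ := hx
  exact div_nonneg (hG _) (CB_w_nonneg f y)

theorem CB_ms (f : Polynomial ℂ) {G : ℂ → ℝ} (hG : ∀ y, 0 ≤ G y) (s : Multiset ℂ)
    (hs : ∀ y ∈ s, fd f y ≠ 0) :
    ENNReal.ofReal ((s.map fun y => G y / CB_w f y).sum) =
      (s.map fun y => ENNReal.ofReal (G y) / ENNReal.ofReal (‖fd f y‖ ^ 2)).sum := by
  induction s using Multiset.induction_on with
  | empty => simp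
  | cons y s ih =>
    rw [Multiset.map_cons, Multiset.sum_cons, Multiset.map_cons, Multiset.sum_cons,
      ENNReal.ofReal_add (div_nonneg (hG _) (CB_w_nonneg f y)),
      ih (fun x hx => hs x (Multiset.mem_cons_of_mem hx)), ENNReal.ofReal_div_of_pos]
    · rfl
    · have h := norm_pos_iff.mpr (hs y (Multiset.mem_cons_self y s))
      unfold CB_w
      positivity
    · refine Multiset.sum_nonneg fun x hx => ?_
      rw [Multiset.mem_map] at hx
      obtain ⟨y, _, rfl⟩ := hx
      exact div_nonneg (hG _) (CB_w_nonneg f y)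

theorem CB_ae (hPRB : PRB_stmt) (f : Polynomial ℂ) (hf : 1 ≤ f.natDegree) : ∀ᵐ z : ℂ, z ∉ CV f := by
  have h := (hPRB f hf).2.2.2.2.1
  rw [ae_iff]
  simp only [not_not]
  exact h.measure_zero volume

theorem CB_lint (hPRB : PRB_stmt) (hM : MCV_stmt) (f : Polynomial ℂ) (hf : 1 ≤ f.natDegree)
    {G : ℂ → ℝ} (hG : Measurable G) (hG0 : ∀ y, 0 ≤ G y) {K : Set ℂ} (hK : MeasurableSet K) :
    ∫⁻ z in K, ENNReal.ofReal (CB_T f G z) =
      ∫⁻ y in {y : ℂ | f.eval y ∈ K}, ENNReal.ofReal (G y) := by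
  rw [← hM f hf (fun y => ENNReal.ofReal (G y)) K hG.ennreal_ofReal hK]
  apply lintegral_congr_ae
  filter_upwards [ae_restrict_of_ae (CB_ae hPRB f hf)] with z hz
  unfold CB_T
  rw [CB_ms f hG0]
  intro y hy h0
  exact hz ⟨y, h0, ((hPRB f hf).1 z y).mp hy⟩

theorem CB_pos_int (hPRB : PRB_stmt) (hMS : MS_stmt) (hM : MCV_stmt) (f : Polynomial ℂ)
    (hf : 1 ≤ f.natDegree) {G : ℂ → ℝ} (hG : Measurable G)
    (hG0 : ∀ y, 0 ≤ G y) {K : Set ℂ} (hK : MeasurableSet K)
    (hI : IntegrableOn G {y : ℂ | f.eval y ∈ K}) :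
    IntegrableOn (CB_T f G) K ∧
      ∫ z in K, CB_T f G z = ∫ y in {y : ℂ | f.eval y ∈ K}, G y := by
  have h1 := CB_lint hPRB hM f hf hG hG0 hK
  have h2 : ∫⁻ y in {y : ℂ | f.eval y ∈ K}, ENNReal.ofReal (G y) < ⊤ := by
    have h3 := hI.2
    rw [hasFiniteIntegral_iff_ofReal (Eventually.of_forall hG0)] at h3
    exact h3
  refine ⟨⟨(CB_T_meas hMS f hf hG).aestronglyMeasurable, ?_⟩, ?_⟩
  · rw [hasFiniteIntegral_iff_ofReal (Eventually.of_forall (CB_T_nonneg f hG0)), h1]
    exact h2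
  · rw [integral_eq_lintegral_of_nonneg_ae (Eventually.of_forall (CB_T_nonneg f hG0))
      (CB_T_meas hMS f hf hG).aestronglyMeasurable, h1,
      integral_eq_lintegral_of_nonneg_ae (Eventually.of_forall hG0) hG.aestronglyMeasurable]

theorem CB_real_int (hPRB : PRB_stmt) (hMS : MS_stmt) (hM : MCV_stmt) (f : Polynomial ℂ)
    (hf : 1 ≤ f.natDegree) {G : ℂ → ℝ} (hG : Measurable G)
    {K : Set ℂ} (hK : MeasurableSet K) (hI : IntegrableOn G {y : ℂ | f.eval y ∈ K}) :
    IntegrableOn (CB_T f G) K ∧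
      ∫ z in K, CB_T f G z = ∫ y in {y : ℂ | f.eval y ∈ K}, G y := by
  have hp := CB_pos_int hPRB hMS hM f hf (G := fun y => max (G y) 0) (hG.max measurable_const)
    (fun y => le_max_right _ _) hK hI.pos_part
  have hm := CB_pos_int hPRB hMS hM f hf (G := fun y => max (-G y) 0) (hG.neg.max measurable_const)
    (fun y => le_max_right _ _) hK hI.neg_part
  have hdec : ∀ y, G y = max (G y) 0 - max (-G y) 0 := by
    intro y
    rcases le_total 0 (G y) with h | h
    · rw [max_eq_left h, max_eq_right (by linarith)]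
      ring
    · rw [max_eq_right h, max_eq_left (by linarith)]
      ring
  have hT : CB_T f G = fun z => CB_T f (fun y => max (G y) 0) z -
      CB_T f (fun y => max (-G y) 0) z := by
    funext z
    unfold CB_T
    rw [← Multiset.sum_map_sub]
    congr 1
    refine Multiset.map_congr rfl fun y _ => ?_
    rw [← sub_div, ← hdec]
  have hGG : (fun y => G y) = fun y => max (G y) 0 - max (-G y) 0 := by
    funext y
    exact hdec y
  refine ⟨?_, ?_⟩
  · rw [hT]
    exact hp.1.sub hm.1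
  · rw [hT, integral_sub hp.1 hm.1, hp.2, hm.2, hGG, integral_sub hI.pos_part hI.neg_part]

theorem CB_cx (f : Polynomial ℂ) (F : ℂ → ℂ) (s : Multiset ℂ) :
    (s.map fun y => F y / ((‖fd f y‖ ^ 2 : ℝ) : ℂ)).sum =
      (((s.map fun y => (F y).re / CB_w f y).sum : ℝ) : ℂ) +
        (((s.map fun y => (F y).im / CB_w f y).sum : ℝ) : ℂ) * I := by
  induction s using Multiset.induction_on with
  | empty => simp
  | cons y s ih =>
    rw [Multiset.map_cons, Multiset.sum_cons, Multiset.map_cons, Multiset.sum_cons, Multiset.map_cons,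
      Multiset.sum_cons, ih]
    have h1 : F y / ((‖fd f y‖ ^ 2 : ℝ) : ℂ) = (((F y).re / CB_w f y : ℝ) : ℂ) +
        (((F y).im / CB_w f y : ℝ) : ℂ) * I := by
      rw [Complex.ofReal_div, Complex.ofReal_div, div_mul_eq_mul_div, ← add_div, Complex.re_add_im]
      rfl
    rw [h1, Complex.ofReal_add, Complex.ofReal_add]
    ring

/-- CB. -/
theorem CB (hPRB : PRB_stmt) (hMS : MS_stmt) (hM : MCV_stmt) : CB_stmt := by
  intro f hf F K hF hK hI
  have hre := CB_real_int hPRB hMS hM f hf (G := fun y => (F y).re) hF.re hK hI.re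
  have him := CB_real_int hPRB hMS hM f hf (G := fun y => (F y).im) hF.im hK hI.im
  have hT : (fun z => ((pre f z).map fun y => F y / ((‖fd f y‖ ^ 2 : ℝ) : ℂ)).sum) =
      fun z => ((CB_T f (fun y => (F y).re) z : ℝ) : ℂ) +
        ((CB_T f (fun y => (F y).im) z : ℝ) : ℂ) * I := by
    funext z
    exact CB_cx f F (pre f z)
  have hA : Integrable (fun z => ((CB_T f (fun y => (F y).re) z : ℝ) : ℂ)) (volume.restrict K) :=
    hre.1.ofReal
  have hB : Integrable (fun z => ((CB_T f (fun y => (F y).im) z : ℝ) : ℂ) * I)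
      (volume.restrict K) := him.1.ofReal.mul_const I
  refine ⟨?_, ?_⟩
  · rw [hT]
    exact hA.add hB
  · rw [hT, integral_add hA hB, integral_mul_const,
      integral_complex_ofReal, integral_complex_ofReal, hre.2, him.2]
    have hI1 : IntegrableOn (fun y => (((F y).re : ℝ) : ℂ)) {y : ℂ | f.eval y ∈ K} := hI.re.ofReal
    have hI2 : IntegrableOn (fun y => (((F y).im : ℝ) : ℂ) * I) {y : ℂ | f.eval y ∈ K} :=
      hI.im.ofReal.mul_const I
    have hF3 : ∫ y in {y : ℂ | f.eval y ∈ K}, F y =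
        ∫ y in {y : ℂ | f.eval y ∈ K}, ((((F y).re : ℝ) : ℂ) + (((F y).im : ℝ) : ℂ) * I) := by
      simp only [Complex.re_add_im]
    rw [hF3, integral_add hI1 hI2, integral_mul_const, integral_complex_ofReal, integral_complex_ofReal]

end PPS
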