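import Pool.Agent.helper36.PP.SpecL
import Pool.Agent.helper98.ILF.Julia

/-!
# Project pp: (MP_70a088_an): JBD, the Julia set of a polynomial is bounded
-/

set_option autoImplicit false

open Complex Metric Set Filter Topology MeasureTheory MPS MQ Pool.Agent.helper98.ILF

noncomputable section

namespace PPS

theorem JBD_esc (f : Polynomial ℂ) (hf : 2 ≤ f.natDegree) :
    ∃ A : ℝ, 1 ≤ A ∧ ∀ z : ℂ, A ≤ ‖z‖ → 2 * ‖z‖ ≤ ‖f.eval z‖ := by
  have hg : 0 < f.divX.degree := by
    rw [← Polynomial.natDegree_pos_iff_degree_pos, Polynomial.natDegree_divX_eq_natDegree_tsub_one]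
    omega
  have ht : Tendsto (fun z : ℂ => ‖f.divX.eval z‖) (Bornology.cobounded ℂ) atTop :=
    Polynomial.tendsto_norm_atTop f.divX hg tendsto_norm_cobounded_atTop
  have hev := ht.eventually (eventually_ge_atTop (2 + ‖f.coeff 0‖))
  rw [← comap_norm_atTop, eventually_comap] at hev
  obtain ⟨A, hA⟩ := eventually_atTop.mp hev
  refine ⟨max A 1, le_max_right _ _, fun z hz => ?_⟩
  have h1 : 2 + ‖f.coeff 0‖ ≤ ‖f.divX.eval z‖ := hA ‖z‖ ((le_max_left _ _).trans hz) z rfl
  have h2 : 1 ≤ ‖z‖ := (le_max_right _ _).trans hz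
  have h3 : f.eval z = f.divX.eval z * z + f.coeff 0 := by
    conv_lhs => rw [← Polynomial.divX_mul_X_add f]
    simp
  have h4 : ‖f.divX.eval z * z‖ ≤ ‖f.eval z‖ + ‖f.coeff 0‖ := by
    have h5 : f.divX.eval z * z = f.eval z - f.coeff 0 := by rw [h3]; ring
    rw [h5]
    exact norm_sub_le _ _
  rw [norm_mul] at h4
  have h6 := norm_nonneg (f.coeff 0)
  nlinarith

/-- JBD. -/
theorem JBD : JBD_stmt := by
  intro f hf
  obtain ⟨A, hA1, hA⟩ := JBD_esc f hf
  have hit : ∀ (k : ℕ) (w : ℂ), A ≤ ‖w‖ → A ≤ ‖(fun z : ℂ => f.eval z)^[k] w‖ := by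
    intro k
    induction k with
    | zero => intro w hw; simpa using hw
    | succ k ih =>
      intro w hw
      rw [Function.iterate_succ_apply]
      apply ih
      have := hA w hw
      linarith
  have hopen : IsOpen {z : ℂ | A < ‖z‖} := isOpen_lt continuous_const continuous_norm
  have hsub : {z : ℂ | A < ‖z‖} ⊆ fatouSet (fun z : ℂ => f.eval z) := by
    apply interior_maximal _ hopen
    intro z hz
    have hz' : A < ‖z‖ := hz
    refine equicontAt_of_omit f.differentiable (z₀ := 0) (ρ := 1) (k₁ := 0) (δ := ‖z‖ - A) (by linarith)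
      one_pos ?_
    intro k _ w hw
    rw [sub_zero]
    refine hA1.trans (hit k w ?_)
    rw [mem_ball, dist_eq_norm] at hw
    have h1 : ‖z‖ ≤ ‖w‖ + ‖w - z‖ := by
      have h2 := norm_sub_le w (w - z)
      rw [sub_sub_cancel] at h2
      exact h2
    linarith
  refine ⟨A + 1, fun z hz => ?_⟩
  by_contra hcon
  apply hz
  apply hsub
  show A < ‖z‖
  linarith [not_lt.mp hcon]

end PPS
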