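import Pool.Agent.helper36.PP.SpecL
import Pool.Agent.helper98.ILF.Julia

/-!
# Project pp: (MP_70a088_an): JUL, the Cauchy transform vanishes on the Julia set
-/

set_option autoImplicit false

open Complex Metric Set Filter Topology MeasureTheory MPS MQ Pool.Agent.helper98.ILF

noncomputable section

namespace PPS

theorem JUL_diff (f : Polynomial ℂ) (k : ℕ) : Differentiable ℂ ((fun z : ℂ => f.eval z)^[k]) :=
  Differentiable.iterate f.differentiable k

theorem JUL_deriv (f : Polynomial ℂ) (b : ℂ) : deriv (fun z : ℂ => f.eval z) b = fd f b :=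
  f.deriv

theorem JUL_iter {f : Polynomial ℂ} {μ : ℂ → ℂ}
    (h0 : ∀ b, fd f b * NLF.CT μ b = NLF.CT μ (f.eval b)) (k : ℕ) : ∀ b : ℂ,
    deriv ((fun z : ℂ => f.eval z)^[k]) b * NLF.CT μ b = NLF.CT μ ((fun z : ℂ => f.eval z)^[k] b) := by
  induction k with
  | zero =>
    intro b
    simp
  | succ k ih =>
    intro b
    rw [Function.iterate_succ, deriv_comp b ((JUL_diff f k) _) (f.differentiable b), JUL_deriv, mul_assoc,
      h0, ih, Function.comp_apply]

/-- JUL. -/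
theorem JUL (hCTA : CTA_stmt) : JUL_stmt := by
  intro f A μ hμ h0 b hb
  by_contra hne
  obtain ⟨_, ⟨M, hbd⟩, hcont, _⟩ := hCTA μ A hμ.meas hμ.bd hμ.supp
  have hM0 : 0 ≤ M := (norm_nonneg _).trans (hbd b)
  have hm : 0 < ‖NLF.CT μ b‖ / 2 := by
    have := norm_pos_iff.2 hne
    positivity
  set m : ℝ := ‖NLF.CT μ b‖ / 2 with hm'
  have hlt : m < ‖NLF.CT μ b‖ := by
    rw [hm']
    linarith
  have hev : ∀ᶠ w in 𝓝 b, m < ‖NLF.CT μ w‖ :=
    (hcont.norm.continuousAt (x := b)).eventually_const_lt hlt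
  obtain ⟨δ, hδ, hball⟩ := Metric.eventually_nhds_iff_ball.1 hev
  set F : ℂ → ℂ := fun z : ℂ => f.eval z with hf
  set L : ℝ := M / m with hL
  have hL0 : 0 ≤ L := by positivity
  have hder : ∀ (k : ℕ), ∀ w ∈ ball b δ, ‖deriv (F^[k]) w‖ ≤ L := by
    intro k w hw
    have h1 := JUL_iter h0 k w
    have h2 : ‖deriv (F^[k]) w‖ * ‖NLF.CT μ w‖ ≤ M := by
      rw [← norm_mul, h1]
      exact hbd _
    have h3 := hball w hw
    rw [hL, le_div_iff₀ hm]
    calc ‖deriv (F^[k]) w‖ * m ≤ ‖deriv (F^[k]) w‖ * ‖NLF.CT μ w‖ := by gcongr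
      _ ≤ M := h2
  have hlip : ∀ (k : ℕ), ∀ w ∈ ball b δ, ∀ w' ∈ ball b δ,
      ‖F^[k] w - F^[k] w'‖ ≤ L * ‖w - w'‖ := by
    intro k w hw w' hw'
    exact (convex_ball b δ).norm_image_sub_le_of_norm_deriv_le
      (fun x _ => (JUL_diff f k) x) (fun x hx => hder k x hx) hw' hw
  refine hb (mem_interior.2 ⟨ball b δ, ?_, isOpen_ball, mem_ball_self hδ⟩)
  intro z hz ε hε
  have hz' : 0 < δ - dist z b := by
    rw [mem_ball] at hz
    linarith
  refine ⟨min (δ - dist z b) (ε / (L + 1)), lt_min hz' (by positivity), fun w hw k => ?_⟩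
  have hw1 : ‖w - z‖ < δ - dist z b := hw.trans_le (min_le_left _ _)
  have hw2 : ‖w - z‖ < ε / (L + 1) := hw.trans_le (min_le_right _ _)
  have hwb : w ∈ ball b δ := by
    rw [mem_ball]
    have := dist_triangle w z b
    rw [dist_eq_norm w z] at this
    linarith
  calc chordal (F^[k] w) (F^[k] z) ≤ ‖F^[k] w - F^[k] z‖ := chordal_le _ _
    _ ≤ L * ‖w - z‖ := hlip k w hwb z hz
    _ ≤ (L + 1) * ‖w - z‖ := by
      gcongr
      linarith
    _ < ε := by
      rw [lt_div_iff₀ (by positivity)] at hw2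
      linarith

end PPS
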