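import Pool.Agent.helper36.PP.SpecA
import Pool.Agent.helper74.MP.MA

/-!
# Project pp: (MP_70a088_an): MA (sum of pulled back densities)
-/

set_option autoImplicit false

open Complex Metric Set Filter Topology MeasureTheory MPS

noncomputable section

namespace PPS

/-- MA. -/
theorem MA (hMI : MI_stmt) (hERI : ERI_stmt) (hMD : MD_stmt) : MA_stmt := by
  intro n k _ f b g R hn hf hcyc hrho hR0 hR hinv Q M Ω G hG hmult
  obtain ⟨-, -, hmer, hmDf, -, -⟩ := hMI k f b g (by omega)
  have hrho1 : rho f b ≠ 1 := by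
    intro h
    rw [h, norm_one] at hrho
    exact lt_irrefl _ hrho
  have hint := (hERI n k f b g R hn hf hcyc hrho1 hR0 hinv).1
  have hMD2 := hMD n k f b g R hn hf hcyc hrho hR0 hR hinv
  have hS : ∀ q < Q, MeasurableSet (G q '' Ω q) := fun q hq =>
    MPS.MA_meas (hG q hq).1 (hG q hq).2.1 (hG q hq).2.2.1
  have hSD : ∀ q < Q, G q '' Ω q ⊆ ball 0 R := fun q hq => (hG q hq).2.2.2.image_subset
  have he : ∫⁻ z in ball (0 : ℂ) R, ENNReal.ofReal ‖er f b g z‖ =
      ENNReal.ofReal (∫ z in ball (0 : ℂ) R, ‖er f b g z‖) :=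
    (ofReal_integral_eq_lintegral_ofReal hint.norm
      (Eventually.of_forall fun z => norm_nonneg _)).symm
  have he0 : 0 ≤ ∫ z in ball (0 : ℂ) R, ‖er f b g z‖ := integral_nonneg fun z => norm_nonneg _
  have hL0 : 0 < Real.log ‖rho f b‖ := Real.log_pos hrho
  constructor
  · have h1 : ∀ q ∈ Finset.range Q, ∫⁻ w in Ω q, ENNReal.ofReal (dens f b g (G q) w) =
        ∫⁻ z in G q '' Ω q, ENNReal.ofReal (Df f b g z + 2 * ‖er f b g z‖) := by
      intro q hq
      have hq' := hG q (Finset.mem_range.mp hq)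
      exact MPS.MA_cov hq'.1 hq'.2.1 hq'.2.2.1 (fun z => Df f b g z + 2 * ‖er f b g z‖)
    rw [Finset.sum_congr rfl h1]
    have hmeas : Measurable fun z => ENNReal.ofReal (Df f b g z + 2 * ‖er f b g z‖) :=
      (hmDf.add (hmer.norm.const_mul 2)).ennreal_ofReal
    refine (MPS.MA_mult hS measurableSet_ball hSD hmult hmeas).trans ?_
    gcongr
    calc ∫⁻ z in ball (0 : ℂ) R, ENNReal.ofReal (Df f b g z + 2 * ‖er f b g z‖)
        ≤ ∫⁻ z in ball (0 : ℂ) R, (ENNReal.ofReal (Df f b g z) +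
            2 * ENNReal.ofReal ‖er f b g z‖) := by
          refine lintegral_mono fun z => ?_
          refine ENNReal.ofReal_add_le.trans ?_
          gcongr
          rw [ENNReal.ofReal_mul (by norm_num), ENNReal.ofReal_ofNat]
      _ = (∫⁻ z in ball (0 : ℂ) R, ENNReal.ofReal (Df f b g z)) +
            2 * ∫⁻ z in ball (0 : ℂ) R, ENNReal.ofReal ‖er f b g z‖ := by
          rw [lintegral_add_left hmDf.ennreal_ofReal,
            lintegral_const_mul _ hmer.norm.ennreal_ofReal]
      _ ≤ ENNReal.ofReal (2 * Real.pi * Real.log ‖rho f b‖ +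
            ∫ z in ball (0 : ℂ) R, ‖er f b g z‖) +
            2 * ENNReal.ofReal (∫ z in ball (0 : ℂ) R, ‖er f b g z‖) := by
          rw [he]
          gcongr
      _ = ENNReal.ofReal (2 * Real.pi * Real.log ‖rho f b‖ +
            3 * ∫ z in ball (0 : ℂ) R, ‖er f b g z‖) := by
          have e2 : (2 : ENNReal) = ENNReal.ofReal 2 := (ENNReal.ofReal_ofNat 2).symm
          rw [e2, ← ENNReal.ofReal_mul (by norm_num), ← ENNReal.ofReal_add (by positivity)
            (by positivity)]
          congr 1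
          ring
  · have h1 : ∀ q ∈ Finset.range Q,
        ∫⁻ w in Ω q, ENNReal.ofReal (‖er f b g (G q w)‖ * ‖deriv (G q) w‖ ^ 2) =
        ∫⁻ z in G q '' Ω q, ENNReal.ofReal ‖er f b g z‖ := by
      intro q hq
      have hq' := hG q (Finset.mem_range.mp hq)
      exact MPS.MA_cov hq'.1 hq'.2.1 hq'.2.2.1 (fun z => ‖er f b g z‖)
    rw [Finset.sum_congr rfl h1]
    refine (MPS.MA_mult hS measurableSet_ball hSD hmult hmer.norm.ennreal_ofReal).trans ?_
    rw [he]

end PPS
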