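import Pool.Agent.helper36.PP.SpecA

/-!
# Project pp: (MP_70a088_an): QB (bound of the polynomial Q)
-/

set_option autoImplicit false

open Complex Metric Set Filter Topology MeasureTheory MPS

noncomputable section

namespace PPS

/-- QB. -/
theorem QB : QB_stmt := by
  intro n k _ f b g a R hn hf ha hR y hy
  have hm0 : (0 : ℝ) ≤ max a 1 := le_trans zero_le_one (le_max_right _ _)
  have hco : ∀ l, l < n → ‖f.derivative.coeff l‖ ≤ n * max a 1 := by
    intro l hl
    rw [Polynomial.coeff_derivative, norm_mul, mul_comm]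
    refine mul_le_mul ?_ ((ha _).trans (le_max_left _ _)) (norm_nonneg _) (Nat.cast_nonneg _)
    have h1 : ‖((l : ℂ) + 1)‖ = (l : ℝ) + 1 := by
      have h2 : ((l : ℂ) + 1) = ((l + 1 : ℕ) : ℂ) := by push_cast; ring
      rw [h2, Complex.norm_natCast]
      push_cast
      ring
    rw [h1]
    exact_mod_cast hl
  have hpow : ∀ e, e ≤ n → ‖y‖ ^ e ≤ R ^ n := by
    intro e he
    calc ‖y‖ ^ e ≤ R ^ e := pow_le_pow_left₀ (norm_nonneg _) hy e
      _ ≤ R ^ n := pow_le_pow_right₀ hR he
  have hRn : 0 ≤ R ^ n := by positivity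
  unfold QQ
  rw [hf]
  calc ‖∑ m ∈ Finset.range (n - 1), lam f b g m *
        ∑ l ∈ Finset.Ico (m + 1) n, f.derivative.coeff l * y ^ (l - 1 - m)‖
      ≤ ∑ m ∈ Finset.range (n - 1), ‖lam f b g m *
        ∑ l ∈ Finset.Ico (m + 1) n, f.derivative.coeff l * y ^ (l - 1 - m)‖ := norm_sum_le _ _
    _ ≤ ∑ m ∈ Finset.range (n - 1), ‖lam f b g m‖ * ((n : ℝ) ^ 3 * max a 1 * R ^ n) := by
        refine Finset.sum_le_sum fun m _ => ?_
        rw [norm_mul]
        refine mul_le_mul_of_nonneg_left ?_ (norm_nonneg _)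
        calc ‖∑ l ∈ Finset.Ico (m + 1) n, f.derivative.coeff l * y ^ (l - 1 - m)‖
            ≤ ∑ l ∈ Finset.Ico (m + 1) n, ‖f.derivative.coeff l * y ^ (l - 1 - m)‖ := norm_sum_le _ _
          _ ≤ ∑ l ∈ Finset.Ico (m + 1) n, n * max a 1 * R ^ n := by
              refine Finset.sum_le_sum fun l hl => ?_
              rw [Finset.mem_Ico] at hl
              rw [norm_mul, norm_pow]
              exact mul_le_mul (hco l hl.2) (hpow _ (by omega)) (by positivity) (by positivity)
          _ = ((n - (m + 1) : ℕ) : ℝ) * (n * max a 1 * R ^ n) := by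
              rw [Finset.sum_const, Nat.card_Ico, nsmul_eq_mul]
          _ ≤ (n : ℝ) * (n * max a 1 * R ^ n) := by
              refine mul_le_mul_of_nonneg_right ?_ (by positivity)
              exact_mod_cast Nat.sub_le n (m + 1)
          _ ≤ (n : ℝ) ^ 3 * max a 1 * R ^ n := by
              have h1 : (1 : ℝ) ≤ n := by exact_mod_cast (by omega : 1 ≤ n)
              have h2 : (n : ℝ) * (n * max a 1 * R ^ n) = (n : ℝ) ^ 2 * (max a 1 * R ^ n) := by ring
              have h3 : (n : ℝ) ^ 3 * max a 1 * R ^ n = (n : ℝ) ^ 3 * (max a 1 * R ^ n) := by ring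
              rw [h2, h3]
              refine mul_le_mul_of_nonneg_right (pow_le_pow_right₀ h1 (by norm_num)) (by positivity)
    _ = _ := by
        rw [← Finset.sum_mul, mul_comm]

end PPS
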