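import Pool.Agent.helper36.PP.SpecL

/-!
# Project pp: (MP_70a088_an): MAT (linear algebra)
-/

set_option autoImplicit false

open Complex Metric Set Filter Topology MeasureTheory MPS MQ Pool.Agent.helper98.ILF

noncomputable section

namespace PPS

/-- MAT. -/
theorem MAT : MAT_stmt := by
  intro ι _ _ M h
  have hdet : M.det ≠ 0 := by
    intro h0
    obtain ⟨l, hl, hl0⟩ := Matrix.exists_vecMul_eq_zero_iff.mpr h0
    apply hl
    apply h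
    intro v
    have h1 := congrFun hl0 v
    simpa [Matrix.vecMul, dotProduct] using h1
  have hu : IsUnit M.det := isUnit_iff_ne_zero.mpr hdet
  refine ⟨1 + ∑ v, ∑ i, ‖M⁻¹ v i‖, by positivity, fun s v => ?_⟩
  have h1 : s v = ∑ i, M⁻¹ v i * ∑ w, M i w * s w := by
    have h2 : M⁻¹.mulVec (M.mulVec s) = s := by
      rw [Matrix.mulVec_mulVec, Matrix.nonsing_inv_mul _ hu, Matrix.one_mulVec]
    have h3 := congrFun h2 v
    rw [← h3]
    simp [Matrix.mulVec, dotProduct]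
  have h4 : ∀ i, ‖M⁻¹ v i‖ ≤ 1 + ∑ v, ∑ i, ‖M⁻¹ v i‖ := by
    intro i
    have h5 : ‖M⁻¹ v i‖ ≤ ∑ i, ‖M⁻¹ v i‖ :=
      Finset.single_le_sum (f := fun i => ‖M⁻¹ v i‖) (fun _ _ => norm_nonneg _) (Finset.mem_univ i)
    have h6 : ∑ i, ‖M⁻¹ v i‖ ≤ ∑ v, ∑ i, ‖M⁻¹ v i‖ :=
      Finset.single_le_sum (f := fun v => ∑ i, ‖M⁻¹ v i‖)
        (fun _ _ => Finset.sum_nonneg fun _ _ => norm_nonneg _) (Finset.mem_univ v)
    linarith
  calc ‖s v‖ = ‖∑ i, M⁻¹ v i * ∑ w, M i w * s w‖ := by rw [← h1]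
    _ ≤ ∑ i, ‖M⁻¹ v i * ∑ w, M i w * s w‖ := norm_sum_le _ _
    _ ≤ ∑ i, (1 + ∑ v, ∑ i, ‖M⁻¹ v i‖) * ‖∑ w, M i w * s w‖ := by
      refine Finset.sum_le_sum fun i _ => ?_
      rw [norm_mul]
      exact mul_le_mul_of_nonneg_right (h4 i) (norm_nonneg _)
    _ = _ := by rw [Finset.mul_sum]

end PPS
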